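import Pool.Agent.H82.KL.Targets3

/-!
# (L2P): the polynomial bound at separated points
-/

set_option autoImplicit false
set_option maxHeartbeats 1000000

namespace Pool.Agent.H69.KL

open MeasureTheory Set
open scoped ENNReal NNReal
open Pool.Agent.H82.KL

/-- Schur's test for a symmetric majorant -/
theorem schur {α : Type} (Y : Finset α) (g : α → ℝ) (k : α → α → ℝ) (B : ℝ)
    (hk : ∀ z ∈ Y, ∀ z' ∈ Y, 0 ≤ k z z') (h1 : ∀ z ∈ Y, ∑ z' ∈ Y, k z z' ≤ B)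
    (h2 : ∀ z' ∈ Y, ∑ z ∈ Y, k z z' ≤ B) :
    ∑ z ∈ Y, ∑ z' ∈ Y, g z * g z' * k z z' ≤ B * ∑ z ∈ Y, g z ^ 2 := by
  have h3 : ∑ z ∈ Y, ∑ z' ∈ Y, g z * g z' * k z z' ≤
      ∑ z ∈ Y, ∑ z' ∈ Y, (g z ^ 2 / 2 * k z z' + g z' ^ 2 / 2 * k z z') := by
    refine Finset.sum_le_sum fun z hz => Finset.sum_le_sum fun z' hz' => ?_
    have h4 : g z * g z' ≤ g z ^ 2 / 2 + g z' ^ 2 / 2 := by nlinarith [sq_nonneg (g z - g z')]
    nlinarith [mul_le_mul_of_nonneg_right h4 (hk z hz z' hz')]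
  refine h3.trans ?_
  have h5 : ∑ z ∈ Y, ∑ z' ∈ Y, (g z ^ 2 / 2 * k z z' + g z' ^ 2 / 2 * k z z') =
      ∑ z ∈ Y, g z ^ 2 / 2 * ∑ z' ∈ Y, k z z' + ∑ z' ∈ Y, g z' ^ 2 / 2 * ∑ z ∈ Y, k z z' := by
    simp_rw [Finset.sum_add_distrib]
    congr 1
    · refine Finset.sum_congr rfl fun z _ => ?_
      rw [Finset.mul_sum]
    · rw [Finset.sum_comm]
      refine Finset.sum_congr rfl fun z _ => ?_
      rw [Finset.mul_sum]
  rw [h5]
  have h6 : ∑ z ∈ Y, g z ^ 2 / 2 * ∑ z' ∈ Y, k z z' ≤ ∑ z ∈ Y, g z ^ 2 / 2 * B :=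
    Finset.sum_le_sum fun z hz => mul_le_mul_of_nonneg_left (h1 z hz) (by positivity)
  have h7 : ∑ z' ∈ Y, g z' ^ 2 / 2 * ∑ z ∈ Y, k z z' ≤ ∑ z' ∈ Y, g z' ^ 2 / 2 * B :=
    Finset.sum_le_sum fun z hz => mul_le_mul_of_nonneg_left (h2 z hz) (by positivity)
  have h8 : ∑ z ∈ Y, g z ^ 2 / 2 * B = B / 2 * ∑ z ∈ Y, g z ^ 2 := by
    rw [Finset.mul_sum]
    exact Finset.sum_congr rfl fun z _ => by ring
  linarith

/-- the majorant of the kernel -/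
noncomputable def maj {d : ℕ} (y : EE d) (s : ℝ) : ℝ :=
  (1 + ‖y‖ + |s|) ^ (-(((d : ℝ) - 1) / 2)) * ((1 + abs (‖y‖ - |s|)) ^ (d + 2))⁻¹

theorem maj_nonneg {d : ℕ} (y : EE d) (s : ℝ) : 0 ≤ maj y s := by
  unfold maj
  positivity

theorem maj_le_one {d : ℕ} (hd : 1 ≤ d) (y : EE d) (s : ℝ) : maj y s ≤ 1 := by
  have hd' : (1 : ℝ) ≤ d := by exact_mod_cast hd
  have h1 : (1 + ‖y‖ + |s|) ^ (-(((d : ℝ) - 1) / 2)) ≤ 1 := by
    refine Real.rpow_le_one_of_one_le_of_nonpos ?_ (by linarith)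
    have := norm_nonneg y
    have := abs_nonneg s
    linarith
  have h2 : ((1 + abs (‖y‖ - |s|)) ^ (d + 2))⁻¹ ≤ 1 := by
    refine inv_le_one_of_one_le₀ (one_le_pow₀ ?_)
    have := abs_nonneg (‖y‖ - |s|)
    linarith
  unfold maj
  have h3 : (0 : ℝ) ≤ ((1 + abs (‖y‖ - |s|)) ^ (d + 2))⁻¹ := by positivity
  calc _ ≤ 1 * ((1 + abs (‖y‖ - |s|)) ^ (d + 2))⁻¹ := mul_le_mul_of_nonneg_right h1 h3
    _ ≤ 1 := by rw [one_mul]; exact h2

theorem maj_far {d : ℕ} (hd : 1 ≤ d) {R : ℝ} (hR : 1 ≤ R) (z z' : EE d × ℝ)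
    (hs : |z.2 - z'.2| ≤ R) (hfar : 2 * R ≤ dist z z') :
    maj (z.1 - z'.1) (z.2 - z'.2) ≤ 2 ^ (d + 2) * ((1 + dist z z') ^ (d + 2))⁻¹ := by
  have hd' : (1 : ℝ) ≤ d := by exact_mod_cast hd
  have h0 : dist z z' = max ‖z.1 - z'.1‖ |z.2 - z'.2| := by
    rw [Prod.dist_eq, dist_eq_norm, Real.dist_eq]
  have h1 : dist z z' = ‖z.1 - z'.1‖ := by
    rw [h0]
    refine max_eq_left ?_
    by_contra hlt
    push Not at hlt
    rw [h0, max_eq_right hlt.le] at hfar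
    linarith
  have h2 : (1 + dist z z') / 2 ≤ 1 + abs (‖z.1 - z'.1‖ - |z.2 - z'.2|) := by
    have h3 := le_abs_self (‖z.1 - z'.1‖ - |z.2 - z'.2|)
    rw [← h1] at h3 ⊢
    linarith
  have h3 : (1 + ‖z.1 - z'.1‖ + |z.2 - z'.2|) ^ (-(((d : ℝ) - 1) / 2)) ≤ 1 := by
    refine Real.rpow_le_one_of_one_le_of_nonpos ?_ (by linarith)
    have := norm_nonneg (z.1 - z'.1)
    have := abs_nonneg (z.2 - z'.2)
    linarith
  have hdist : 0 ≤ dist z z' := dist_nonneg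
  have h4 : ((1 + abs (‖z.1 - z'.1‖ - |z.2 - z'.2|)) ^ (d + 2))⁻¹ ≤
      (((1 + dist z z') / 2) ^ (d + 2))⁻¹ := by
    refine inv_anti₀ (by positivity) (pow_le_pow_left₀ (by positivity) h2 _)
  have h5 : (((1 + dist z z') / 2) ^ (d + 2))⁻¹ =
      2 ^ (d + 2) * ((1 + dist z z') ^ (d + 2))⁻¹ := by
    rw [div_pow, inv_div]
    field_simp
  unfold maj
  calc _ ≤ 1 * ((1 + abs (‖z.1 - z'.1‖ - |z.2 - z'.2|)) ^ (d + 2))⁻¹ :=
        mul_le_mul_of_nonneg_right h3 (by positivity)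
    _ ≤ _ := by rw [one_mul, ← h5]; exact h4

/-- the row sums of the majorant -/
theorem row_sum (hP : T_PACK) (hS : T_PSUM) (d : ℕ) (hd : 1 ≤ d) : ∃ C : ℝ, 0 ≤ C ∧
    ∀ (R : ℝ) (Y : Finset (EE d × ℝ)), 1 ≤ R → Sep Y → (∀ z ∈ Y, R ≤ z.2 ∧ z.2 ≤ 2 * R) →
      ∀ z ∈ Y, ∑ z' ∈ Y, maj (z.1 - z'.1) (z.2 - z'.2) ≤ C * R ^ (d + 2) := by
  classical
  obtain ⟨C₁, hC₁, h₁⟩ := hP d
  obtain ⟨C₂, hC₂, h₂⟩ := hS d
  refine ⟨C₁ * 3 ^ (d + 1) + 2 ^ (d + 2) * C₂, by positivity, ?_⟩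
  intro R Y hR hY hYR z hz
  have hs : ∀ z' ∈ Y, |z.2 - z'.2| ≤ R := by
    intro z' hz'
    obtain ⟨h3, h4⟩ := hYR z hz
    obtain ⟨h5, h6⟩ := hYR z' hz'
    rw [abs_le]
    constructor <;> linarith
  have hsep : ∀ T : Finset (EE d × ℝ), T ⊆ Y → Sep T := fun T hT a ha b hb hab =>
    hY a (hT ha) b (hT hb) hab
  rw [← Finset.sum_filter_add_sum_filter_not Y (fun z' => dist z z' ≤ 2 * R)]
  have hnear : ∑ z' ∈ Y.filter (fun z' => dist z z' ≤ 2 * R),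
      maj (z.1 - z'.1) (z.2 - z'.2) ≤ C₁ * 3 ^ (d + 1) * R ^ (d + 2) := by
    calc ∑ z' ∈ Y.filter (fun z' => dist z z' ≤ 2 * R), maj (z.1 - z'.1) (z.2 - z'.2)
        ≤ ∑ z' ∈ Y.filter (fun z' => dist z z' ≤ 2 * R), (1 : ℝ) :=
          Finset.sum_le_sum fun z' _ => maj_le_one hd _ _
      _ = ((Y.filter (fun z' => dist z z' ≤ 2 * R)).card : ℝ) := by simp
      _ ≤ C₁ * (1 + 2 * R) ^ (d + 1) :=
          h₁ _ z (2 * R) (hsep _ (Finset.filter_subset _ _)) (by linarith)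
            fun z' hz' => (Finset.mem_filter.1 hz').2
      _ ≤ C₁ * (3 * R) ^ (d + 1) :=
          mul_le_mul_of_nonneg_left (pow_le_pow_left₀ (by linarith) (by linarith) _) hC₁
      _ = C₁ * 3 ^ (d + 1) * R ^ (d + 1) := by rw [mul_pow]; ring
      _ ≤ C₁ * 3 ^ (d + 1) * R ^ (d + 2) :=
          mul_le_mul_of_nonneg_left (pow_le_pow_right₀ hR (by omega)) (by positivity)
  have hfar : ∑ z' ∈ Y.filter (fun z' => ¬ dist z z' ≤ 2 * R),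
      maj (z.1 - z'.1) (z.2 - z'.2) ≤ 2 ^ (d + 2) * C₂ * R ^ (d + 2) := by
    calc ∑ z' ∈ Y.filter (fun z' => ¬ dist z z' ≤ 2 * R), maj (z.1 - z'.1) (z.2 - z'.2)
        ≤ ∑ z' ∈ Y.filter (fun z' => ¬ dist z z' ≤ 2 * R),
            2 ^ (d + 2) * ((1 + dist z z') ^ (d + 2))⁻¹ := by
          refine Finset.sum_le_sum fun z' hz' => ?_
          rw [Finset.mem_filter, not_le] at hz'
          exact maj_far hd hR z z' (hs z' hz'.1) hz'.2.le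
      _ = 2 ^ (d + 2) * ∑ z' ∈ Y.filter (fun z' => ¬ dist z z' ≤ 2 * R),
            ((1 + dist z z') ^ (d + 2))⁻¹ := by rw [Finset.mul_sum]
      _ ≤ 2 ^ (d + 2) * C₂ := mul_le_mul_of_nonneg_left
          (h₂ _ z (hsep _ (Finset.filter_subset _ _))) (by positivity)
      _ = 2 ^ (d + 2) * C₂ * 1 := by ring
      _ ≤ 2 ^ (d + 2) * C₂ * R ^ (d + 2) :=
          mul_le_mul_of_nonneg_left (one_le_pow₀ hR) (by positivity)
  calc _ ≤ C₁ * 3 ^ (d + 1) * R ^ (d + 2) + 2 ^ (d + 2) * C₂ * R ^ (d + 2) :=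
        add_le_add hnear hfar
    _ = _ := by ring

theorem maj_symm {d : ℕ} (z z' : EE d × ℝ) :
    maj (z.1 - z'.1) (z.2 - z'.2) = maj (z'.1 - z.1) (z'.2 - z.2) := by
  unfold maj
  rw [norm_sub_rev, abs_sub_comm (z.2)]

/-- the bound of the Gram form -/
theorem gq_le {d : ℕ} {a : EE d → ℂ} {C B : ℝ} (hC : 0 ≤ C)
    (hK : ∀ (y : EE d) (s : ℝ), ‖U (sq a) (y, s)‖ ≤ C * maj y s) (Y : Finset (EE d × ℝ))
    (hB : ∀ z ∈ Y, ∑ z' ∈ Y, maj (z.1 - z'.1) (z.2 - z'.2) ≤ B) (c : EE d × ℝ → ℂ) :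
    gq a Y c ≤ C * (B * ∑ z ∈ Y, ‖c z‖ ^ 2) := by
  have h1 : gq a Y c ≤ ∑ z ∈ Y, ∑ z' ∈ Y, C * (‖c z‖ * ‖c z'‖ *
      maj (z.1 - z'.1) (z.2 - z'.2)) := by
    unfold gq
    refine (Complex.re_le_norm _).trans ((norm_sum_le _ _).trans ?_)
    refine Finset.sum_le_sum fun z _ => (norm_sum_le _ _).trans ?_
    refine Finset.sum_le_sum fun z' _ => ?_
    rw [norm_mul, norm_mul, RCLike.norm_conj]
    have h2 := hK (z.1 - z'.1) (z.2 - z'.2)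
    have h3 : (z - z' : EE d × ℝ) = (z.1 - z'.1, z.2 - z'.2) := rfl
    rw [h3]
    calc ‖c z‖ * ‖c z'‖ * ‖U (sq a) (z.1 - z'.1, z.2 - z'.2)‖
        ≤ ‖c z‖ * ‖c z'‖ * (C * maj (z.1 - z'.1) (z.2 - z'.2)) :=
          mul_le_mul_of_nonneg_left h2 (by positivity)
      _ = _ := by ring
  refine h1.trans ?_
  have h4 : ∑ z ∈ Y, ∑ z' ∈ Y, C * (‖c z‖ * ‖c z'‖ * maj (z.1 - z'.1) (z.2 - z'.2)) =
      C * ∑ z ∈ Y, ∑ z' ∈ Y, ‖c z‖ * ‖c z'‖ * maj (z.1 - z'.1) (z.2 - z'.2) := by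
    rw [Finset.mul_sum]
    refine Finset.sum_congr rfl fun z _ => ?_
    rw [Finset.mul_sum]
  rw [h4]
  refine mul_le_mul_of_nonneg_left ?_ hC
  refine schur Y (fun z => ‖c z‖) (fun z z' => maj (z.1 - z'.1) (z.2 - z'.2)) B
    (fun _ _ _ _ => maj_nonneg _ _) hB fun z' hz' => ?_
  rw [Finset.sum_congr rfl fun z _ => maj_symm z z']
  exact hB z' hz'

theorem l2p_main (h1 : T_DUAL2) (h2 : T_GRAM) (h3 : T_PACK) (h4 : T_K1) (h5 : T_PSUM) :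
    T_L2P := by
  classical
  intro d a hd ha
  obtain ⟨C₁, hC₁, hrow⟩ := row_sum h3 h5 d hd
  have hsq : Sym (sq a) := (h2 d a ha).1
  obtain ⟨C₂, hC₂, hK⟩ := h4 d (d + 2) (sq a) hd hsq
  have hK' : ∀ (y : EE d) (s : ℝ), ‖U (sq a) (y, s)‖ ≤ C₂ * maj y s := by
    intro y s
    have := hK y s
    unfold maj
    rw [← mul_assoc]
    exact this
  refine ⟨⟨1 + C₂ * C₁, by positivity⟩, ?_⟩
  intro R f Y hR hf hY hYR
  have hRpow : R ^ ((d : ℝ) + 2) = R ^ (d + 2) := by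
    rw [← Real.rpow_natCast]
    push_cast
    rfl
  rw [hRpow]
  have hRp : 0 < R ^ (d + 2) := by positivity
  set Cn : ℝ≥0 := ⟨1 + C₂ * C₁, by positivity⟩ with hCn
  have hCn' : (Cn : ℝ≥0∞) = ENNReal.ofReal (1 + C₂ * C₁) := by
    rw [ENNReal.ofReal, Real.toNNReal_of_nonneg (by positivity)]
    rfl
  by_cases hI : ∫⁻ y, ‖f y‖ₑ ^ 2 = ⊤
  · rw [hI, ENNReal.mul_top]
    · exact le_top
    · rw [hCn']
      refine mul_ne_zero ?_ ?_
      · rw [Ne, ENNReal.ofReal_eq_zero, not_le]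
        positivity
      · rw [Ne, ENNReal.ofReal_eq_zero, not_le]
        exact hRp
  · set c : EE d × ℝ → ℂ := fun z => (starRingEnd ℂ) (W a f z) with hc
    set S : ℝ := ∑ z ∈ Y, ‖W a f z‖ ^ 2 with hS
    have hS0 : 0 ≤ S := Finset.sum_nonneg fun _ _ => by positivity
    have hcS : ∑ z ∈ Y, c z * W a f z = (S : ℂ) := by
      rw [hS, Complex.ofReal_sum]
      refine Finset.sum_congr rfl fun z _ => ?_
      rw [hc]
      simp only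
      rw [Complex.conj_mul']
      push_cast
      rfl
    have hcn : ∑ z ∈ Y, ‖c z‖ ^ 2 = S := by
      refine Finset.sum_congr rfl fun z _ => ?_
      rw [hc]
      simp only
      rw [RCLike.norm_conj]
    obtain ⟨hg0, hD⟩ := h1 d a f Y c ha hf (Or.inr hI)
    have hg := gq_le hC₂ hK' Y (hrow R Y hR hY hYR) c
    rw [hcn] at hg
    rw [hcS, Complex.norm_real, Real.norm_of_nonneg hS0] at hD
    set I : ℝ := (∫⁻ y, ‖f y‖ₑ ^ 2).toReal with hIr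
    have hI0 : 0 ≤ I := ENNReal.toReal_nonneg
    have hIe : ∫⁻ y, ‖f y‖ₑ ^ 2 = ENNReal.ofReal I := (ENNReal.ofReal_toReal hI).symm
    have h6 : S ^ 2 ≤ I * (C₂ * (C₁ * R ^ (d + 2) * S)) := by
      rw [hIe, ← ENNReal.ofReal_mul hI0] at hD
      have h7 : 0 ≤ I * gq a Y c := mul_nonneg hI0 hg0
      have h8 := (ENNReal.ofReal_le_ofReal_iff h7).1 hD
      exact h8.trans (mul_le_mul_of_nonneg_left hg hI0)
    have h9 : S ≤ C₂ * C₁ * R ^ (d + 2) * I := by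
      rcases hS0.eq_or_lt with h0 | h0
      · rw [← h0]
        positivity
      · have h10 : S * S ≤ (C₂ * C₁ * R ^ (d + 2) * I) * S := by
          calc S * S = S ^ 2 := by ring
            _ ≤ _ := h6
            _ = _ := by ring
        exact le_of_mul_le_mul_right h10 h0
    have h11 : ∑ z ∈ Y, ‖W a f z‖ₑ ^ 2 = ENNReal.ofReal S := by
      rw [hS, ENNReal.ofReal_sum_of_nonneg (fun _ _ => by positivity)]
      refine Finset.sum_congr rfl fun z _ => ?_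
      rw [ENNReal.ofReal_pow (norm_nonneg _), ofReal_norm_eq_enorm]
    rw [h11, hCn', hIe, ← ENNReal.ofReal_mul (by positivity), ← ENNReal.ofReal_mul (by positivity)]
    refine ENNReal.ofReal_le_ofReal (h9.trans ?_)
    have : 0 ≤ R ^ (d + 2) * I := by positivity
    nlinarith

end Pool.Agent.H69.KL
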